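import Mathlib
import Pool.Agent.H744R2.KZ.Props

open scoped ComplexOrder InnerProductSpace ComplexConjugate Topology
open Finset Filter

namespace H744R2.KZ

open H759R2.Kad

universe u

namespace Edensa_aux

variable {H : Type u} [NormedAddCommGroup H] [InnerProductSpace ℂ H] [CompleteSpace H]
  {A : Type u} [CStarAlgebra A]

/-- the real subspace of the vectors `(π a ξ_i)`, `a` self-adjoint -/
def K0 (π : A →⋆ₐ[ℂ] (H →L[ℂ] H)) (n : ℕ) (ξ : Fin n → H) : Submodule ℝ (HH (Fin n) H) where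
  carrier := {k | ∃ a : A, IsSelfAdjoint a ∧ ∀ i, k i = π a (ξ i)}
  add_mem' := by
    rintro k l ⟨a, ha, hka⟩ ⟨b, hb, hlb⟩
    refine ⟨a + b, ha.add hb, fun i => ?_⟩
    rw [PiLp.add_apply, hka, hlb, map_add]
    rfl
  zero_mem' := ⟨0, IsSelfAdjoint.zero A, fun i => by simp⟩
  smul_mem' := by
    rintro c k ⟨a, ha, hka⟩
    refine ⟨(c : ℂ) • a, ?_, fun i => ?_⟩
    · rw [IsSelfAdjoint, star_smul, ha.star_eq, Complex.star_def, Complex.conj_ofReal]
    · rw [PiLp.smul_apply, hka, map_smul]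
      rfl

theorem key (π : A →⋆ₐ[ℂ] (H →L[ℂ] H)) (m : H →L[ℂ] H) (hm : IsSelfAdjoint m)
    (n : ℕ) (ξ z : Fin n → H)
    (hd : ∀ ε : ℝ, 0 < ε → ∃ a : A, (∀ i, ‖(π a - m) (ξ i)‖ ≤ ε) ∧ ∀ i, ‖(π a - m) (z i)‖ ≤ ε)
    (hz : ∀ a : A, IsSelfAdjoint a → ∑ i, (⟪π a (ξ i), z i⟫_ℂ).re = 0) :
    ∑ i, (⟪m (ξ i), z i⟫_ℂ).re = 0 := by
  set r := ∑ i, (⟪m (ξ i), z i⟫_ℂ).re with hr
  set S := ∑ i, (‖z i‖ + ‖ξ i‖) with hS
  have hS0 : 0 ≤ S := Finset.sum_nonneg fun i _ => by positivity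
  have hb : ∀ ε : ℝ, 0 < ε → |2 * r| ≤ ε * S := by
    intro ε hε
    obtain ⟨a, ha1, ha2⟩ := hd ε hε
    have h1 := hz (a + star a) (by
      rw [IsSelfAdjoint, star_add, star_star, add_comm])
    have h2 : ∀ i, (⟪π (a + star a) (ξ i), z i⟫_ℂ).re =
        (⟪π a (ξ i), z i⟫_ℂ).re + (⟪ξ i, π a (z i)⟫_ℂ).re := by
      intro i
      rw [map_add, map_star, add_apply, inner_add_left, Complex.add_re,
        ContinuousLinearMap.star_eq_adjoint, ContinuousLinearMap.adjoint_inner_left]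
    have h3 : 2 * r = ∑ i, ((⟪m (ξ i), z i⟫_ℂ).re + (⟪ξ i, m (z i)⟫_ℂ).re) := by
      rw [hr, Finset.mul_sum]
      refine Finset.sum_congr rfl fun i _ => ?_
      have : ⟪m (ξ i), z i⟫_ℂ = ⟪ξ i, m (z i)⟫_ℂ := by
        conv_lhs => rw [← hm.star_eq, ContinuousLinearMap.star_eq_adjoint,
          ContinuousLinearMap.adjoint_inner_left]
      rw [this]; ring
    have h4 : 2 * r = ∑ i, (-(⟪(π a - m) (ξ i), z i⟫_ℂ).re - (⟪ξ i, (π a - m) (z i)⟫_ℂ).re) := by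
      have h5 : (0 : ℝ) = ∑ i, ((⟪π a (ξ i), z i⟫_ℂ).re + (⟪ξ i, π a (z i)⟫_ℂ).re) := by
        rw [← h1]; exact Finset.sum_congr rfl fun i _ => h2 i
      rw [h3, ← sub_zero (∑ i, ((⟪m (ξ i), z i⟫_ℂ).re + (⟪ξ i, m (z i)⟫_ℂ).re)), h5,
        ← Finset.sum_sub_distrib]
      refine Finset.sum_congr rfl fun i _ => ?_
      simp only [sub_apply, inner_sub_left, inner_sub_right, Complex.sub_re]
      ring
    rw [h4]
    refine (Finset.abs_sum_le_sum_abs _ _).trans ?_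
    rw [hS, Finset.mul_sum]
    refine Finset.sum_le_sum fun i _ => ?_
    have h6 : |(⟪(π a - m) (ξ i), z i⟫_ℂ).re| ≤ ε * ‖z i‖ :=
      (Complex.abs_re_le_norm _).trans ((norm_inner_le_norm _ _).trans
        (mul_le_mul_of_nonneg_right (ha1 i) (norm_nonneg _)))
    have h7 : |(⟪ξ i, (π a - m) (z i)⟫_ℂ).re| ≤ ε * ‖ξ i‖ := by
      refine (Complex.abs_re_le_norm _).trans ((norm_inner_le_norm _ _).trans ?_)
      rw [mul_comm]
      exact mul_le_mul_of_nonneg_right (ha2 i) (norm_nonneg _)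
    have h8 := abs_sub (-(⟪(π a - m) (ξ i), z i⟫_ℂ).re) (⟪ξ i, (π a - m) (z i)⟫_ℂ).re
    rw [abs_neg] at h8
    linarith
  by_contra hne
  have hpos : 0 < |2 * r| := abs_pos.2 (mul_ne_zero two_ne_zero hne)
  have h9 := hb (|2 * r| / (2 * (S + 1))) (by positivity)
  have h10 : |2 * r| / (2 * (S + 1)) * S < |2 * r| := by
    rw [div_mul_eq_mul_div, div_lt_iff₀ (by positivity)]
    nlinarith
  linarith

theorem gen {E : Type u} [NormedAddCommGroup E] [InnerProductSpace ℝ E] [CompleteSpace E]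
    (K0 : Submodule ℝ E) (v : E)
    (h : ∀ z : E, (∀ k ∈ K0, ⟪k, z⟫_ℝ = 0) → ⟪v, z⟫_ℝ = 0) : v ∈ closure (K0 : Set E) := by
  rw [← Submodule.topologicalClosure_coe]
  set K : Submodule ℝ E := K0.topologicalClosure with hK
  obtain ⟨y, hy, z, hz, hvyz⟩ := K.exists_add_mem_mem_orthogonal v
  have h5 : ⟪v, z⟫_ℝ = 0 := h z fun k hk =>
    (Submodule.mem_orthogonal K z).1 hz k (K0.le_topologicalClosure hk)
  have h6 : ⟪y, z⟫_ℝ = 0 := (Submodule.mem_orthogonal K z).1 hz y hy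
  have h7 : ⟪z, z⟫_ℝ = 0 := by
    have : z = v - y := by rw [hvyz]; abel
    nth_rewrite 1 [this]
    rw [inner_sub_left, h5, h6, sub_zero]
  have h8 : z = 0 := inner_self_eq_zero.1 h7
  rw [hvyz, h8, add_zero]
  exact hy

end Edensa_aux

open Edensa_aux in
theorem prove_E_densa (h1 : E_dens.{u}) : E_densa.{u} := by
  intro A _ H _ _ _ π m hm hmc n ξ ε hε
  set v : HH (Fin n) H := WithLp.toLp 2 (fun i => m (ξ i)) with hv
  have h9 : v ∈ closure ((K0 π n ξ : Submodule ℝ (HH (Fin n) H)) : Set (HH (Fin n) H)) := by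
    let I1 : InnerProductSpace ℝ H := InnerProductSpace.rclikeToReal ℂ H
    let I2 : InnerProductSpace ℝ (HH (Fin n) H) := PiLp.innerProductSpace (fun _ : Fin n => H)
    refine gen (K0 π n ξ) v ?_
    intro z hz
    have hz0 : ∀ a : A, IsSelfAdjoint a → ∑ i, (⟪π a (ξ i), z i⟫_ℂ).re = 0 := by
      intro a ha
      have h3 := hz (WithLp.toLp 2 (fun i => π a (ξ i))) ⟨a, ha, fun i => rfl⟩
      rw [PiLp.inner_apply] at h3
      simpa [real_inner_eq_re_inner ℂ] using h3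
    have h4 := key π m hm n ξ (fun i => z i) (by
      intro δ hδ
      obtain ⟨a, ha⟩ := h1 A H π m hmc (n + n) (Fin.append ξ (fun i => z i)) δ hδ
      refine ⟨a, fun i => ?_, fun i => ?_⟩
      · have := ha (Fin.castAdd n i)
        rwa [Fin.append_left] at this
      · have := ha (Fin.natAdd n i)
        rwa [Fin.append_right] at this) hz0
    rw [PiLp.inner_apply]
    simpa [real_inner_eq_re_inner ℂ] using h4
  obtain ⟨k, ⟨a, ha, hka⟩, hk⟩ := Metric.mem_closure_iff.1 h9 ε hε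
  refine ⟨a, ha, fun i => ?_⟩
  have h10 : (π a - m) (ξ i) = (k - v) i := by
    rw [PiLp.sub_apply, hka]; rfl
  rw [h10]
  refine (PiLp.norm_apply_le (k - v) i).trans ?_
  rw [← dist_eq_norm, dist_comm]
  exact hk.le

end H744R2.KZ
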